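import Mathlib

set_option autoImplicit false
set_option linter.unusedSectionVars false

namespace Pool.Agent.H.MP_b405c8_an

section
variable {V : Type*} [NormedAddCommGroup V] [NormedSpace ℝ V] [PartialOrder V]

/-- positive functional -/
def Pos (f : V →ₗ[ℝ] ℝ) : Prop := ∀ v, 0 ≤ v → 0 ≤ f v

/-- order unit compatible with the norm -/
def OU (u : V) : Prop := 0 ≤ u ∧ ∀ v : V, v ≤ ‖v‖ • u

/-- pure positive functional -/
def Pure (u : V) (ω : V →ₗ[ℝ] ℝ) : Prop :=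
  Pos ω ∧ 0 < ω u ∧ ∀ φ : V →ₗ[ℝ] ℝ, Pos φ → Pos (ω - φ) → ∃ l : ℝ, φ = l • ω

/-- interior of the cone -/
def P (u x : V) : Prop := ∃ ε : ℝ, 0 < ε ∧ ε • u ≤ x

variable [IsOrderedAddMonoid V] [PosSMulMono ℝ V]

omit [PosSMulMono ℝ V] in
theorem Pos.mono {f : V →ₗ[ℝ] ℝ} (hf : Pos f) {a b : V} (h : a ≤ b) : f a ≤ f b := by
  have := hf _ (sub_nonneg.2 h)
  rw [map_sub] at this
  linarith

theorem OU.smul_le {u : V} (hu : OU u) {s t : ℝ} (h : s ≤ t) : s • u ≤ t • u := by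
  rw [← sub_nonneg, ← sub_smul]
  exact smul_nonneg (sub_nonneg.2 h) hu.1

omit [PosSMulMono ℝ V] in
theorem Pos.eq_zero {u : V} (hu : OU u) {f : V →ₗ[ℝ] ℝ} (hf : Pos f) (h : f u = 0) : f = 0 := by
  have h1 : ∀ v, f v ≤ 0 := fun v => by simpa [h] using hf.mono (hu.2 v)
  ext v
  have h2 := h1 (-v)
  rw [map_neg] at h2
  exact le_antisymm (h1 v) (by simpa using h2)

theorem sep {u : V} (hu : OU u) (J : Set V) (hne : J.Nonempty)
    (hJ : ∀ a ∈ J, ∀ b ∈ J, ∀ s t : ℝ, 0 ≤ s → 0 ≤ t → s + t = 1 → ∃ c ∈ J, s • a + t • b ≤ c)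
    (w : V) (hw : ∀ z ∈ J, ¬ w ≤ z) :
    ∃ f : V →ₗ[ℝ] ℝ, Pos f ∧ 0 < f u ∧ ∀ z ∈ J, f z ≤ f w := by
  set U : Set V := {v | ∃ z ∈ J, ∃ ε : ℝ, 0 < ε ∧ v + ε • u ≤ z} with hU
  have hc : Convex ℝ U := by
    rintro a ⟨z, hz, ε, hε, h⟩ b ⟨z', hz', ε', hε', h'⟩ s t hs ht hst
    obtain ⟨c, hc, hle⟩ := hJ z hz z' hz' s t hs ht hst
    refine ⟨c, hc, min ε ε', lt_min hε hε', le_trans ?_ hle⟩
    have h1 : a + min ε ε' • u ≤ z := 
      le_trans (add_le_add le_rfl (hu.smul_le (min_le_left _ _))) h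
    have h2 : b + min ε ε' • u ≤ z' :=
      le_trans (add_le_add le_rfl (hu.smul_le (min_le_right _ _))) h'
    calc s • a + t • b + min ε ε' • u = s • (a + min ε ε' • u) + t • (b + min ε ε' • u) := by
          have : t = 1 - s := by linarith
          subst this
          module
      _ ≤ s • z + t • z' :=
          add_le_add (smul_le_smul_of_nonneg_left h1 hs) (smul_le_smul_of_nonneg_left h2 ht)
  have ho : IsOpen U := by
    rw [Metric.isOpen_iff]
    rintro v ⟨z, hz, ε, hε, h⟩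
    refine ⟨ε / 2, by positivity, fun v' hv' => ⟨z, hz, ε / 2, by positivity, le_trans ?_ h⟩⟩
    rw [mem_ball_iff_norm] at hv'
    have h1 : v' - v ≤ (ε / 2) • u := (hu.2 _).trans (hu.smul_le hv'.le)
    calc v' + (ε / 2) • u = v + ((v' - v) + (ε / 2) • u) := by abel
      _ ≤ v + ((ε / 2) • u + (ε / 2) • u) := by gcongr
      _ = v + ε • u := by module
  have hwU : w ∉ U := by
    rintro ⟨z, hz, ε, hε, h⟩
    exact hw z hz (le_trans (le_add_of_nonneg_right (smul_nonneg hε.le hu.1)) h)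
  obtain ⟨f, hf⟩ := geometric_hahn_banach_open_point hc ho hwU
  obtain ⟨z0, hz0⟩ := hne
  have hp : Pos (f : V →ₗ[ℝ] ℝ) := by
    intro p hp
    by_contra hneg
    push Not at hneg
    change f p < 0 at hneg
    set s : ℝ := |f w - f (z0 - u)| / (-f p) with hs
    have hs0 : 0 ≤ s := div_nonneg (abs_nonneg _) (by linarith)
    have h1 := hf (z0 - u - s • p) ⟨z0, hz0, 1, one_pos, by
      have : z0 - u - s • p + (1 : ℝ) • u = z0 - s • p := by module
      rw [this]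
      exact sub_le_self _ (smul_nonneg hs0 hp)⟩
    rw [map_sub, map_smul, smul_eq_mul] at h1
    have h2 : s * f p = -|f w - f (z0 - u)| := by
      rw [hs]
      have : f p ≠ 0 := hneg.ne
      field_simp
    have h3 := le_abs_self (f w - f (z0 - u))
    linarith
  have hu0 : 0 < f u := by
    refine lt_of_le_of_ne (hp u hu.1) fun h => ?_
    have h0 := hp.eq_zero hu h.symm
    have h1 := hf (z0 - u) ⟨z0, hz0, 1, one_pos, by simp⟩
    have h2 : ∀ v, f v = 0 := fun v => LinearMap.congr_fun h0 v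
    simp [h2] at h1
  refine ⟨f, hp, hu0, fun z hz => ?_⟩
  change f z ≤ f w
  refine le_of_forall_pos_le_add fun ε hε => ?_
  have h1 := hf (z - (ε / f u) • u) ⟨z, hz, ε / f u, by positivity, by simp⟩
  rw [map_sub, map_smul, smul_eq_mul, div_mul_cancel₀ _ hu0.ne'] at h1
  linarith

theorem directed {u : V} (hu : OU u) {ω : V →ₗ[ℝ] ℝ} (hω : Pure u ω) {t : ℝ} {a b : V}
    (ha : ω a < t) (hb : ω b < t) : ∃ z, a ≤ z ∧ b ≤ z ∧ ω z < t := by
  by_contra hc
  push Not at hc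
  have hu2 : OU ((u, u) : V × V) := by
    refine ⟨⟨hu.1, hu.1⟩, fun v => ⟨?_, ?_⟩⟩
    · exact (hu.2 _).trans (hu.smul_le (norm_fst_le v))
    · exact (hu.2 _).trans (hu.smul_le (norm_snd_le v))
  obtain ⟨f, hf, hfu, hfz⟩ := sep hu2 {p | p.1 = p.2 ∧ ω p.1 < t} ⟨(a, a), rfl, ha⟩
    (by
      rintro p ⟨hp, hp'⟩ q ⟨hq, hq'⟩ s r hs hr hsr
      refine ⟨_, ⟨?_, ?_⟩, le_rfl⟩
      · simp [hp, hq]
      · simp only [Prod.fst_add, Prod.smul_fst, map_add, map_smul, smul_eq_mul]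
        rcases hs.eq_or_lt with h | h
        · subst h
          have : r = 1 := by linarith
          subst this
          simpa using hq'
        · have h1 := mul_lt_mul_of_pos_left hp' h
          have h2 := mul_le_mul_of_nonneg_left hq'.le hr
          have h3 : s * t + r * t = t := by rw [← add_mul, hsr, one_mul]
          linarith)
    (a, b) (by
      rintro ⟨z, z'⟩ ⟨h1, h2⟩ ⟨h3, h4⟩
      simp only at h1 h2 h3 h4
      subst h1
      exact absurd h2 (not_lt.2 (hc z h3 h4)))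
  set f1 := f ∘ₗ LinearMap.inl ℝ V V with hf1
  set f2 := f ∘ₗ LinearMap.inr ℝ V V with hf2
  have e12 : ∀ x y, f (x, y) = f1 x + f2 y := by
    intro x y
    simp [hf1, hf2, ← map_add]
  have p1 : Pos f1 := fun v hv => hf _ ⟨hv, le_rfl⟩
  have p2 : Pos f2 := fun v hv => hf _ ⟨le_rfl, hv⟩
  have hb' : ∀ z, ω z < t → f1 z + f2 z ≤ f1 a + f2 b := by
    intro z hz
    rw [← e12, ← e12]
    exact hfz _ ⟨rfl, hz⟩
  have hk : ∀ v, ω v = 0 → f1 v + f2 v = 0 := by
    intro v hv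
    by_contra hne
    have := hb' (a + ((f2 b - f2 a + 1) / (f1 v + f2 v)) • v) (by simpa [hv] using ha)
    simp only [map_add, map_smul, smul_eq_mul] at this
    have h2 : (f2 b - f2 a + 1) / (f1 v + f2 v) * (f1 v + f2 v) = f2 b - f2 a + 1 :=
      div_mul_cancel₀ _ hne
    nlinarith
  have hωu := hω.2.1
  set κ := (f1 u + f2 u) / ω u with hκ
  have hκ0 : 0 < κ := div_pos (by rwa [← e12]) hωu
  have hg : ∀ v, f1 v + f2 v = κ * ω v := by
    intro v
    have := hk (v - (ω v / ω u) • u) (by simp [div_mul_cancel₀ _ hωu.ne'])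
    simp only [map_sub, map_smul, smul_eq_mul] at this
    rw [hκ]
    field_simp at this ⊢
    linarith
  obtain ⟨l, hl⟩ := hω.2.2 (κ⁻¹ • f1) (fun v hv => mul_nonneg (inv_nonneg.2 hκ0.le) (p1 v hv))
    (fun v hv => by
      have h1 := hg v
      have h2 := p2 v hv
      simp only [LinearMap.sub_apply, LinearMap.smul_apply, smul_eq_mul]
      have : ω v - κ⁻¹ * f1 v = κ⁻¹ * f2 v := by
        field_simp
        linarith
      rw [this]
      positivity)
  have h1 : ∀ v, f1 v = κ * l * ω v := by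
    intro v
    have := LinearMap.congr_fun hl v
    simp only [LinearMap.smul_apply, smul_eq_mul] at this
    field_simp at this
    linarith
  have h2 : ∀ v, f2 v = κ * (1 - l) * ω v := by
    intro v
    have := hg v
    rw [h1] at this
    linarith
  have l0 : 0 ≤ l := by
    have := p1 u hu.1
    rw [h1] at this
    exact nonneg_of_mul_nonneg_right (nonneg_of_mul_nonneg_left this hωu) hκ0
  have l1 : 0 ≤ 1 - l := by
    have := p2 u hu.1
    rw [h2] at this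
    exact nonneg_of_mul_nonneg_right (nonneg_of_mul_nonneg_left this hωu) hκ0
  set m := max (ω a) (ω b) with hm
  have hmt : m < t := max_lt ha hb
  have h3 := hb' ((((m + t) / 2) / ω u) • u) (by
    simp only [map_smul, smul_eq_mul, div_mul_cancel₀ _ hωu.ne']
    linarith)
  rw [hg, h1, h2] at h3
  simp only [map_smul, smul_eq_mul, div_mul_cancel₀ _ hωu.ne'] at h3
  have h4 : l * ω a ≤ l * m := mul_le_mul_of_nonneg_left (le_max_left _ _) l0
  have h5 : (1 - l) * ω b ≤ (1 - l) * m := mul_le_mul_of_nonneg_left (le_max_right _ _) l1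
  have h6 : (m + t) / 2 ≤ l * ω a + (1 - l) * ω b := by
    refine le_of_mul_le_mul_left ?_ hκ0
    linarith
  linarith

theorem P.pos {u x : V} {ω : V →ₗ[ℝ] ℝ} (hω : Pure u ω) (hx : P u x) : 0 < ω x := by
  obtain ⟨ε, hε, h⟩ := hx
  have := hω.1.mono h
  rw [map_smul, smul_eq_mul] at this
  exact lt_of_lt_of_le (mul_pos hε hω.2.1) this

omit [IsOrderedAddMonoid V] [PosSMulMono ℝ V] in
theorem P.of_le {u x y : V} (hx : P u x) (h : x ≤ y) : P u y := by
  obtain ⟨ε, hε, h'⟩ := hx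
  exact ⟨ε, hε, h'.trans h⟩

omit [IsOrderedAddMonoid V] [PosSMulMono ℝ V] in
theorem P_smul_u (u : V) {s : ℝ} (hs : 0 < s) : P u (s • u) := ⟨s, hs, le_rfl⟩

theorem P.nonneg {u x : V} (hu : OU u) (hx : P u x) : 0 ≤ x := by
  obtain ⟨ε, hε, h⟩ := hx
  exact (smul_nonneg hε.le hu.1).trans h

theorem dom {u : V} (hu : OU u) {ω φ : V →ₗ[ℝ] ℝ} (hω : Pure u ω) (hφ : Pos φ) {t m : ℝ}
    (ht : 0 < t) (h : ∀ z, P u z → ω z < t → φ z ≤ m) : ∃ l : ℝ, φ = l • ω := by
  have hωu := hω.2.1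
  set C := 2 * |m| / t + 1 with hC
  have hC0 : 0 < C := by positivity
  have h1 : ∀ q, P u q → φ q ≤ C * ω q := by
    intro q hq
    have hq0 := hq.pos hω
    have h2 := h ((t / (2 * ω q)) • q) (by
      obtain ⟨ε, hε, hle⟩ := hq
      refine ⟨t / (2 * ω q) * ε, by positivity, ?_⟩
      rw [mul_smul]
      exact smul_le_smul_of_nonneg_left hle (by positivity)) (by
      rw [map_smul, smul_eq_mul]
      have : t / (2 * ω q) * ω q = t / 2 := by field_simp
      linarith)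
    rw [map_smul, smul_eq_mul] at h2
    have h3 : φ q ≤ 2 * |m| / t * ω q := by
      have h4 : t / (2 * ω q) * φ q ≤ |m| := h2.trans (le_abs_self m)
      rw [div_mul_eq_mul_div, div_le_iff₀ (by positivity)] at h4
      rw [div_mul_eq_mul_div, le_div_iff₀ ht]
      linarith
    nlinarith
  have h2 : ∀ p, 0 ≤ p → φ p ≤ C * ω p := by
    intro p hp
    refine le_of_forall_pos_le_add fun ε hε => ?_
    have h3 := h1 (p + (ε / (C * ω u)) • u) ⟨ε / (C * ω u), by positivity, by simpa using hp⟩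
    have h4 : 0 ≤ φ ((ε / (C * ω u)) • u) := hφ _ (smul_nonneg (by positivity) hu.1)
    rw [map_add, map_add, map_smul ω, smul_eq_mul] at h3
    have h5 : C * (ε / (C * ω u) * ω u) = ε := by field_simp
    linarith
  obtain ⟨l, hl⟩ := hω.2.2 (C⁻¹ • φ) (fun v hv => mul_nonneg (inv_nonneg.2 hC0.le) (hφ v hv))
    (fun v hv => by
      have := h2 v hv
      simp only [LinearMap.sub_apply, LinearMap.smul_apply, smul_eq_mul, sub_nonneg]
      rwa [inv_mul_le_iff₀ hC0])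
  refine ⟨C * l, ?_⟩
  rw [mul_smul, ← hl, smul_smul, mul_inv_cancel₀ hC0.ne', one_smul]

/-- ordered commutative group structure on the interior of the cone -/
structure Grp (u : V) (op : V → V → V) (e : V) : Prop where
  cl : ∀ a b, P u a → P u b → P u (op a b)
  assoc : ∀ a b c, P u a → P u b → P u c → op (op a b) c = op a (op b c)
  comm : ∀ a b, P u a → P u b → op a b = op b a
  he : P u e
  id : ∀ a, P u a → op e a = a
  inv : ∀ a, P u a → ∃ b, P u b ∧ op a b = e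
  mono : ∀ a b c, P u a → P u b → P u c → a ≤ b → op a c ≤ op b c

variable {u e : V} {op : V → V → V} {ω : V →ₗ[ℝ] ℝ}

omit [IsOrderedAddMonoid V] [PosSMulMono ℝ V] in
theorem Grp.cancel (G : Grp u op e) {a c c' : V} (ha : P u a) (hc : P u c) (hc' : P u c')
    (h : op c c' = e) : op (op a c) c' = a := by
  rw [G.assoc _ _ _ ha hc hc', h, G.comm _ _ ha G.he, G.id _ ha]

theorem Grp.key (G : Grp u op e) (hu : OU u) (hω : Pure u ω) {c x : V} {t t' : ℝ} (hc : P u c)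
    (hx : P u x) (ht' : 0 < t') (htx : t ≤ ω x)
    (h : ∀ z, P u z → ω z < t' → ∃ y, P u y ∧ ω y < t ∧ z ≤ op y c) {y : V} (hy : P u y)
    (hyt : ω y < t) : ω (op y c) ≤ ω (op x c) := by
  obtain ⟨c', hc', hcc⟩ := G.inv c hc
  obtain ⟨f, hf, hfu, hfz⟩ := sep hu {z | ∃ y, P u y ∧ ω y < t ∧ z = op y c} ⟨_, y, hy, hyt, rfl⟩
    (by
      rintro _ ⟨a, ha, hat, rfl⟩ _ ⟨b, hb, hbt, rfl⟩ s r hs hr hsr
      obtain ⟨z, h1, h2, h3⟩ := directed hu hω hat hbt
      have hz := ha.of_le h1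
      refine ⟨_, ⟨z, hz, h3, rfl⟩, ?_⟩
      calc _ ≤ s • op z c + r • op z c :=
            add_le_add (smul_le_smul_of_nonneg_left (G.mono _ _ _ ha hz hc h1) hs)
              (smul_le_smul_of_nonneg_left (G.mono _ _ _ hb hz hc h2) hr)
        _ = _ := by rw [← add_smul, hsr, one_smul])
    (op x c) (by
      rintro _ ⟨a, ha, hat, rfl⟩ hle
      have := G.mono _ _ _ (G.cl _ _ hx hc) (G.cl _ _ ha hc) hc' hle
      rw [G.cancel hx hc hc' hcc, G.cancel ha hc hc' hcc] at this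
      have := hω.1.mono this
      linarith)
  obtain ⟨l, hl⟩ := dom hu hω hf ht' (m := f (op x c)) (fun z hz hzt => by
    obtain ⟨a, ha, hat, hle⟩ := h z hz hzt
    exact (hf.mono hle).trans (hfz _ ⟨a, ha, hat, rfl⟩))
  have h1 := hfz _ ⟨y, hy, hyt, rfl⟩
  rw [hl] at h1 hfu
  simp only [LinearMap.smul_apply, smul_eq_mul] at h1 hfu
  exact le_of_mul_le_mul_left h1 ((mul_pos_iff_of_pos_right hω.2.1).1 hfu)

theorem Grp.star1 (G : Grp u op e) (hu : OU u) (hω : Pure u ω) {c x y : V} (hc : P u c)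
    (hec : e ≤ c) (hx : P u x) (hy : P u y) (h : ω y < ω x) : ω (op y c) ≤ ω (op x c) :=
  G.key hu hω hc hx (hx.pos hω) le_rfl (fun z hz hzt => ⟨z, hz, hzt, by
    have := G.mono _ _ _ G.he hc hz hec
    rwa [G.id _ hz, G.comm _ _ hc hz] at this⟩) hy h

theorem Grp.star2 (G : Grp u op e) (hu : OU u) (hω : Pure u ω) {c x y : V} (hc : P u c)
    (hx : P u x) (hy : P u y) (h : ω y < ω x) : ω (op y c) ≤ ω (op x c) := by
  obtain ⟨ε, hε, h1⟩ := _root_.id hc
  obtain ⟨ε', hε', h2⟩ := G.he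
  have hd : P u (min ε ε' • u) := P_smul_u u (lt_min hε hε')
  have hdc : min ε ε' • u ≤ c := (hu.smul_le (min_le_left _ _)).trans h1
  have hde : min ε ε' • u ≤ e := (hu.smul_le (min_le_right _ _)).trans h2
  set d := min ε ε' • u
  obtain ⟨d', hd', hdd⟩ := G.inv d hd
  have hed : e ≤ d' := by
    have := G.mono _ _ _ hd G.he hd' hde
    rwa [hdd, G.id _ hd'] at this
  have hx0 := G.cl _ _ hy hd
  refine G.key hu hω hc hx (hx0.pos hω) le_rfl (fun z hz hzt => ⟨op z d', G.cl _ _ hz hd', ?_, ?_⟩)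
    hy h
  · have := G.star1 hu hω hd' hed hx0 hz hzt
    rw [G.cancel hy hd hd' hdd] at this
    linarith
  · have h3 := G.cl _ _ hz hd'
    have := G.mono _ _ _ hd hc h3 hdc
    rwa [G.comm _ _ hd h3, G.comm _ _ hc h3,
      G.cancel hz hd' hd (by rw [G.comm _ _ hd' hd, hdd])] at this

theorem Grp.rev (G : Grp u op e) (hu : OU u) (hω : Pure u ω) {x y x' y' : V}
    (hx : P u x) (hy : P u y) (hx' : P u x') (hy' : P u y') (ex : op x x' = e) (ey : op y y' = e)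
    (h : ω y < ω x) : ω x' ≤ ω y' := by
  have := G.star2 hu hω (G.cl _ _ hx' hy') hx hy h
  rwa [← G.assoc _ _ _ hx hx' hy', ex, G.id _ hy', G.comm _ _ hx' hy', ← G.assoc _ _ _ hy hy' hx',
    ey, G.id _ hx'] at this

theorem Grp.contra (G : Grp u op e) (hu : OU u) (hω : Pure u ω) {ω2 ω3 : V →ₗ[ℝ] ℝ}
    (h2 : Pure u ω2) (h3 : Pure u ω3) (hle : ∀ x, 0 ≤ x → ω x ≤ ω2 x + ω3 x)
    (n2 : ∀ l : ℝ, ω2 ≠ l • ω) (n3 : ∀ l : ℝ, ω3 ≠ l • ω) : False := by
  have hPu : P u u := ⟨1, one_pos, by simp⟩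
  obtain ⟨u', hu', euu⟩ := G.inv u hPu
  have hωu := hω.2.1
  have k2 := hu'.pos h2
  have k3 := hu'.pos h3
  have hN := P_smul_u u (s := (ω2 u' + ω3 u' + 1) / ω u) (by positivity)
  obtain ⟨x0, hx0, e0⟩ := G.inv _ hN
  have hδ := hx0.pos hω
  have nd : ∀ φ : V →ₗ[ℝ] ℝ, Pos φ → (∀ l : ℝ, φ ≠ l • ω) →
      ∃ z, P u z ∧ ω z < ω x0 / 2 ∧ φ u < φ z := by
    intro φ hφ hn
    by_contra hc
    push Not at hc
    obtain ⟨l, hl⟩ := dom hu hω hφ (half_pos hδ) hc
    exact hn l hl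
  obtain ⟨z2, a1, a2, a3⟩ := nd ω2 h2.1 n2
  obtain ⟨z3, b1, b2, b3⟩ := nd ω3 h3.1 n3
  have hx : P u (z2 + z3) := a1.of_le (le_add_of_nonneg_right (b1.nonneg hu))
  obtain ⟨x', hx', ex⟩ := G.inv _ hx
  have c2 : ω2 x' ≤ ω2 u' := G.rev hu h2 hx hPu hx' hu' ex euu (by
    have := b1.pos h2
    rw [map_add]
    linarith)
  have c3 : ω3 x' ≤ ω3 u' := G.rev hu h3 hx hPu hx' hu' ex euu (by
    have := a1.pos h3
    rw [map_add]
    linarith)
  have c1 := G.rev hu hω hx0 hx hN hx' (by rw [G.comm _ _ hx0 hN, e0]) ex (by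
    rw [map_add]
    linarith)
  rw [map_smul, smul_eq_mul, div_mul_cancel₀ _ hωu.ne'] at c1
  have := hle x' (hx'.nonneg hu)
  linarith

omit [PosSMulMono ℝ V] in
theorem Pure.comp (hu : OU u) (hω : Pure u ω) (T T' : V →ₗ[ℝ] V) (hT : ∀ v, 0 ≤ v → 0 ≤ T v)
    (hT' : ∀ v, 0 ≤ v → 0 ≤ T' v) (e1 : ∀ v, T (T' v) = v) (e2 : ∀ v, T' (T v) = v) :
    Pure u (ω ∘ₗ T) := by
  have hp : Pos (ω ∘ₗ T) := fun v hv => hω.1 _ (hT v hv)
  refine ⟨hp, lt_of_le_of_ne (hp u hu.1) fun h => ?_, fun φ h1 h2 => ?_⟩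
  · have := LinearMap.congr_fun (hp.eq_zero hu h.symm) (T' u)
    simp only [LinearMap.comp_apply, e1, LinearMap.zero_apply] at this
    exact hω.2.1.ne' this
  · obtain ⟨l, hl⟩ := hω.2.2 (φ ∘ₗ T') (fun v hv => h1 _ (hT' v hv)) (fun v hv => by
      simpa [e1] using h2 _ (hT' v hv))
    refine ⟨l, ?_⟩
    ext v
    simpa [e2] using LinearMap.congr_fun hl (T v)

/-- states -/
def St (u : V) : Set (V → ℝ) :=
  {φ | (∀ a b, φ (a + b) = φ a + φ b) ∧ (∀ (c : ℝ) a, φ (c • a) = c * φ a) ∧ φ u = 1 ∧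
    (∀ a, 0 ≤ a → 0 ≤ φ a)}

omit [PosSMulMono ℝ V] in
theorem St_compact (hu : OU u) : IsCompact (St u) := by
  have h1 : IsCompact (Set.pi Set.univ fun a : V => Set.Icc (-‖a‖) ‖a‖) :=
    isCompact_univ_pi fun a => isCompact_Icc
  refine h1.of_isClosed_subset ?_ fun φ hφ a _ => ?_
  · simp only [St, Set.ofPred_and, Set.ofPred_forall]
    refine IsClosed.inter ?_ (IsClosed.inter ?_ (IsClosed.inter ?_ ?_))
    · exact isClosed_iInter fun a => isClosed_iInter fun b =>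
        isClosed_eq (by fun_prop) (by fun_prop)
    · exact isClosed_iInter fun a => isClosed_iInter fun b =>
        isClosed_eq (by fun_prop) (by fun_prop)
    · exact isClosed_eq (by fun_prop) (by fun_prop)
    · exact isClosed_iInter fun a => isClosed_iInter fun b =>
        isClosed_le (by fun_prop) (by fun_prop)
  · obtain ⟨a1, a2, a3, a4⟩ := hφ
    let f : V →ₗ[ℝ] ℝ := ⟨⟨φ, a1⟩, a2⟩
    have hf : Pos f := a4
    have h3 : f u = 1 := a3
    have h1 := hf.mono (hu.2 a)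
    have h2 := hf.mono (hu.2 (-a))
    rw [map_smul, h3] at h1 h2
    rw [map_neg, norm_neg] at h2
    simp only [smul_eq_mul, mul_one] at h1 h2
    exact ⟨by change _ ≤ f a; linarith, h1⟩

omit [IsOrderedAddMonoid V] [PosSMulMono ℝ V] in
theorem St_convex : Convex ℝ (St u) := by
  rintro φ ⟨a1, a2, a3, a4⟩ ψ ⟨b1, b2, b3, b4⟩ s t hs ht hst
  refine ⟨fun a b => ?_, fun c a => ?_, ?_, fun a ha => ?_⟩
  · simp only [Pi.add_apply, Pi.smul_apply, a1, b1, smul_add]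
    abel
  · simp only [Pi.add_apply, Pi.smul_apply, a2, b2, smul_eq_mul]
    ring
  · simp only [Pi.add_apply, Pi.smul_apply, a3, b3, ← add_smul, hst, one_smul]
  · exact add_nonneg (smul_nonneg hs (a4 a ha)) (smul_nonneg ht (b4 a ha))

omit [IsOrderedAddMonoid V] [PosSMulMono ℝ V] in
theorem mem_St {f : V →ₗ[ℝ] ℝ} (hf : Pos f) (h : 0 < f u) : (fun v => (f u)⁻¹ * f v) ∈ St u :=
  ⟨fun a b => by simp [mul_add], fun c a => by simp only [map_smul, smul_eq_mul]; ring,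
    inv_mul_cancel₀ h.ne', fun a ha => mul_nonneg (inv_nonneg.2 h.le) (hf a ha)⟩

theorem exists_pure (hu : OU u) {d : V} {ε : ℝ} (hε : 0 < ε) (hd : ¬ d ≤ ε • u) :
    ∃ ω : V →ₗ[ℝ] ℝ, Pure u ω ∧ 0 < ω d := by
  obtain ⟨f, hf, hfu, hfz⟩ := sep hu {ε • u} ⟨_, rfl⟩ (by
    rintro _ rfl _ rfl s t _ _ hst
    exact ⟨_, rfl, by rw [← add_smul, hst, one_smul]⟩) d (by rintro _ rfl; exact hd)
  have hfd : 0 < f d := by
    have := hfz _ rfl
    rw [map_smul, smul_eq_mul] at this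
    exact lt_of_lt_of_le (mul_pos hε hfu) this
  have : ∃ φ ∈ (St u).extremePoints ℝ, 0 < φ d := by
    by_contra hc
    push Not at hc
    have h2 := closure_convexHull_extremePoints (St_compact hu) St_convex
    have h3 : closure (convexHull ℝ ((St u).extremePoints ℝ)) ⊆ {φ | φ d ≤ 0} := by
      refine closure_minimal (convexHull_min hc ?_) (isClosed_le (by fun_prop) (by fun_prop))
      intro φ hφ ψ hψ s t hs ht _
      have k1 : φ d ≤ 0 := hφ
      have k2 : ψ d ≤ 0 := hψ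
      change s * φ d + t * ψ d ≤ 0
      nlinarith
    have h4 := h3 (h2.symm ▸ mem_St hf hfu)
    have h5 : 0 < (f u)⁻¹ * f d := by positivity
    exact absurd h4 (not_le.2 h5)
  obtain ⟨φ, hφ, hφd⟩ := this
  obtain ⟨a1, a2, a3, a4⟩ := hφ.1
  let ω : V →ₗ[ℝ] ℝ := ⟨⟨φ, a1⟩, a2⟩
  have h3 : ω u = 1 := a3
  refine ⟨ω, ⟨a4, by simp [h3], fun ψ h1 h2 => ?_⟩, hφd⟩
  rcases (h1 u hu.1).eq_or_lt with h | h
  · exact ⟨0, by rw [h1.eq_zero hu h.symm, zero_smul]⟩
  rcases (h2 u hu.1).eq_or_lt with h' | h'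
  · exact ⟨1, by rw [one_smul]; exact (sub_eq_zero.1 (h2.eq_zero hu h'.symm)).symm⟩
  have hseg := (mem_extremePoints.1 hφ).2 _ (mem_St h1 h) _ (mem_St h2 h')
    ⟨ψ u, (ω - ψ) u, h, h', by simp [h3], by
      funext a
      simp only [Pi.add_apply, Pi.smul_apply, smul_eq_mul, ← mul_assoc, mul_inv_cancel₀ h.ne',
        mul_inv_cancel₀ h'.ne', one_mul]
      change ψ a + (φ a - ψ a) = φ a
      ring⟩
  refine ⟨ψ u, ?_⟩
  ext v
  have := congrFun hseg.1 v
  change ψ v = ψ u * φ v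
  rw [← this, ← mul_assoc, mul_inv_cancel₀ h.ne', one_mul]

end

end Pool.Agent.H.MP_b405c8_an
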