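import Pool.Agent.H.MP_b405c8_an.A

set_option autoImplicit false
set_option linter.unusedSectionVars false

namespace Pool.Agent.H.MP_b405c8_an

variable {A : Type*} [CStarAlgebra A] [PartialOrder A] [StarOrderedRing A]

instance : IsOrderedAddMonoid (selfAdjoint A) where
  add_le_add_left a b h c := by
    change (a : A) + c ≤ b + c
    exact add_le_add h le_rfl

instance : PosSMulMono ℝ (selfAdjoint A) where
  smul_le_smul_of_nonneg_left a ha b c h := by
    change a • (b : A) ≤ a • (c : A)
    exact smul_le_smul_of_nonneg_left h ha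

theorem ou : OU (1 : selfAdjoint A) := by
  refine ⟨zero_le_one (α := A), fun v => ?_⟩
  change (v : A) ≤ ‖(v : A)‖ • (1 : A)
  rw [← Algebra.algebraMap_eq_smul_one]
  exact IsSelfAdjoint.le_algebraMap_norm_self v.2

theorem P_iff (x : selfAdjoint A) : P 1 x ↔ 0 ≤ (x : A) ∧ IsUnit (x : A) := by
  constructor
  · rintro ⟨ε, hε, h⟩
    change ε • (1 : A) ≤ x at h
    exact (isStrictlyPositive_one.smul hε).of_le h
  · intro h
    have h' : IsStrictlyPositive (x : A) := h
    rcases subsingleton_or_nontrivial A with hs | hs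
    · exact ⟨1, one_pos, le_of_eq (Subtype.ext (Subsingleton.elim _ _))⟩
    obtain ⟨r, hr, hle⟩ :=
      (CFC.exists_pos_algebraMap_le_iff h'.isSelfAdjoint).2 fun y hy => h'.spectrum_pos hy
    refine ⟨r, hr, ?_⟩
    change r • (1 : A) ≤ x
    rwa [← Algebra.algebraMap_eq_smul_one]

/-- conjugation -/
noncomputable def cj (b : A) : selfAdjoint A →ₗ[ℝ] selfAdjoint A where
  toFun x := ⟨star b * x * b, x.2.conjugate' b⟩
  map_add' x y := Subtype.ext (by simp [mul_add, add_mul])
  map_smul' c x := Subtype.ext (by simp)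

theorem cj_pos (b : A) (v : selfAdjoint A) (hv : 0 ≤ v) : 0 ≤ cj b v :=
  star_left_conjugate_nonneg (show (0 : A) ≤ v from hv) b

theorem cj_cj {b c : A} (h : c * b = 1) (v : selfAdjoint A) : cj b (cj c v) = v := by
  apply Subtype.ext
  change star b * (star c * v * c) * b = v
  calc _ = star (c * b) * v * (c * b) := by rw [star_mul]; noncomm_ring
    _ = v := by simp [h]

theorem pure_cj {ω : selfAdjoint A →ₗ[ℝ] ℝ} (hω : Pure 1 ω) {b : A} (hb : IsUnit b) :
    Pure 1 (ω ∘ₗ cj b) := by
  obtain ⟨b, rfl⟩ := hb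
  exact hω.comp ou (cj b) (cj (b⁻¹ : Aˣ)) (cj_pos _) (cj_pos _) (cj_cj b.inv_mul) (cj_cj b.mul_inv)

/-- square -/
noncomputable def sq (h : selfAdjoint A) : selfAdjoint A := cj (h : A) 1

theorem sq_zero {op : selfAdjoint A → selfAdjoint A → selfAdjoint A} {e : selfAdjoint A}
    (G : Grp 1 op e) {ω : selfAdjoint A →ₗ[ℝ] ℝ} (hω : Pure 1 ω) (h : selfAdjoint A)
    (h0 : ω h = 0) : ω (sq h) = 0 := by
  by_contra hne
  have hp : 0 < ω (sq h) := lt_of_le_of_ne (hω.1 _ (cj_pos _ _ ou.1)) (Ne.symm hne)
  set c := ω (cj (h : A) h) with hc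
  set ε := min (1 / (‖(h : A)‖ + 1)) (ω (sq h) / (|c| + 1)) with hε
  have hε0 : 0 < ε := lt_min (by positivity) (by positivity)
  have hε1 : ε * ‖(h : A)‖ < 1 := by
    have : ε * (‖(h : A)‖ + 1) ≤ 1 := by
      rw [← le_div_iff₀ (by positivity)]
      exact min_le_left _ _
    linarith
  have hε2 : ε * |c| < ω (sq h) := by
    have : ε * (|c| + 1) ≤ ω (sq h) := by
      rw [← le_div_iff₀ (by positivity)]
      exact min_le_right _ _
    linarith
  have hs : star (h : A) = h := h.2
  have hu : ∀ s : ℝ, |s| = ε → IsUnit (1 - s • (h : A)) := fun s hs' =>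
    isUnit_one_sub_of_norm_lt_one (by rwa [norm_smul, Real.norm_eq_abs, hs'])
  have hexp : ∀ s : ℝ, cj (1 - s • (h : A)) h = h - (2 * s) • sq h + (s * s) • cj (h : A) h := by
    intro s
    apply Subtype.ext
    change star (1 - s • (h : A)) * h * (1 - s • (h : A)) =
      h - (2 * s) • (star (h : A) * 1 * h) + (s * s) • (star (h : A) * h * h)
    simp only [star_sub, star_one, star_smul, star_trivial, hs, mul_sub, sub_mul, mul_one, one_mul,
      smul_mul_assoc, mul_smul_comm]
    module
  have hn : ∀ s : ℝ, |s| = ε → ∀ l : ℝ, ω ∘ₗ cj (1 - s • (h : A)) ≠ l • ω := by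
    intro s hs' l hl
    have := LinearMap.congr_fun hl h
    simp only [LinearMap.comp_apply, hexp, map_add, map_sub, map_smul, smul_eq_mul,
      LinearMap.smul_apply, h0, ← hc] at this
    have hs0 : s ≠ 0 := by
      rintro rfl
      simp at hs'
      exact hε0.ne hs'
    have h1 : 2 * ω (sq h) = s * c := by
      apply mul_left_cancel₀ hs0
      linarith
    have h2 : s * c ≤ ε * |c| := by
      rw [← hs', ← abs_mul]
      exact le_abs_self _
    linarith
  refine G.contra ou hω (pure_cj hω (hu ε (abs_of_pos hε0)))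
    (pure_cj hω (hu (-ε) (by rw [abs_neg, abs_of_pos hε0]))) (fun x hx => ?_)
    (hn ε (abs_of_pos hε0)) (hn (-ε) (by rw [abs_neg, abs_of_pos hε0]))
  have h1 : cj (1 - ε • (h : A)) x + cj (1 - (-ε) • (h : A)) x =
      (2 : ℝ) • x + (2 * (ε * ε)) • cj (h : A) x := by
    apply Subtype.ext
    change star (1 - ε • (h : A)) * x * (1 - ε • (h : A)) +
      star (1 - (-ε) • (h : A)) * x * (1 - (-ε) • (h : A)) =
      (2 : ℝ) • (x : A) + (2 * (ε * ε)) • (star (h : A) * x * h)
    simp only [star_sub, star_one, star_smul, star_trivial, hs, mul_sub, sub_mul, mul_one, one_mul,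
      smul_mul_assoc, mul_smul_comm]
    module
  have h2 := congrArg ω h1
  simp only [map_add, map_smul, smul_eq_mul] at h2
  have h3 := hω.1 _ hx
  have h4 := hω.1 _ (cj_pos (h : A) x hx)
  have h5 : 0 ≤ 2 * (ε * ε) * ω (cj (h : A) x) := by positivity
  simp only [LinearMap.comp_apply]
  linarith

/-- commutator -/
noncomputable def cm (h k : selfAdjoint A) : selfAdjoint A :=
  ⟨Complex.I • ((h : A) * k - k * h), by
    have h1 : star (h : A) = h := h.2
    have h2 : star (k : A) = k := k.2
    change star _ = _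
    simp only [star_smul, star_sub, star_mul, h1, h2, Complex.star_def, Complex.conj_I]
    module⟩

theorem cm_zero {op : selfAdjoint A → selfAdjoint A → selfAdjoint A} {e : selfAdjoint A}
    (G : Grp 1 op e) {ω : selfAdjoint A →ₗ[ℝ] ℝ} (hω : Pure 1 ω) (h k : selfAdjoint A) :
    ω (cm h k) = 0 := by
  set h0 := h - (ω h / ω 1) • (1 : selfAdjoint A) with hh0
  have e0 : ω h0 = 0 := by simp [hh0, div_mul_cancel₀ _ hω.2.1.ne']
  have e1 : cm h k = cm h0 k := by
    apply Subtype.ext
    change Complex.I • ((h : A) * k - k * h) = Complex.I •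
      (((h : A) - (ω h / ω 1) • (1 : A)) * k - k * ((h : A) - (ω h / ω 1) • (1 : A)))
    simp only [mul_sub, sub_mul, mul_one, one_mul, smul_mul_assoc, mul_smul_comm]
    congr 1
    abel
  rw [e1]
  have e2 := sq_zero G hω h0 e0
  have h1 : star (h0 : A) = h0 := h0.2
  have h2 : star (k : A) = k := k.2
  have e3 : ∀ s : ℝ, cj (s • (h0 : A) + Complex.I • (k : A)) 1 =
      (s * s) • sq h0 + s • cm h0 k + sq k := by
    intro s
    apply Subtype.ext
    change star (s • (h0 : A) + Complex.I • (k : A)) * 1 * (s • (h0 : A) + Complex.I • (k : A)) =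
      (s * s) • (star (h0 : A) * 1 * h0) + s • (Complex.I • ((h0 : A) * k - k * h0)) +
        star (k : A) * 1 * k
    simp only [star_add, star_smul, h1, h2, Complex.star_def, Complex.conj_I,
      mul_add, add_mul, mul_one, smul_mul_assoc, mul_smul_comm, ← Complex.coe_smul,
      Complex.conj_ofReal, Complex.ofReal_mul]
    match_scalars <;> simp [mul_comm]
  by_contra hne
  have h3 := hω.1 _ (cj_pos ((-(ω (sq k) + 1) / ω (cm h0 k)) • (h0 : A) + Complex.I • (k : A)) 1
    ou.1)
  rw [e3] at h3
  simp only [map_add, map_smul, smul_eq_mul, e2, div_mul_cancel₀ _ hne] at h3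
  linarith

theorem sa_comm {op : selfAdjoint A → selfAdjoint A → selfAdjoint A} {e : selfAdjoint A}
    (G : Grp 1 op e) (h k : selfAdjoint A) : (h : A) * k = k * h := by
  have key : ∀ h k : selfAdjoint A, (cm h k : A) ≤ 0 := by
    intro h k
    have h1 : ∀ ε : ℝ, 0 < ε → cm h k ≤ ε • (1 : selfAdjoint A) := by
      intro ε hε
      by_contra hc
      obtain ⟨ω, hω, hp⟩ := exists_pure ou hε hc
      exact hp.ne' (cm_zero G hω h k)
    have h2 : Filter.Tendsto (fun ε : ℝ => ε • (1 : A)) (nhdsWithin 0 (Set.Ioi 0)) (nhds 0) := by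
      have : Continuous fun ε : ℝ => ε • (1 : A) := by fun_prop
      simpa using (this.tendsto 0).mono_left nhdsWithin_le_nhds
    exact ge_of_tendsto h2 (eventually_nhdsWithin_of_forall h1)
  have h1 := key h k
  have h2 := key k h
  change Complex.I • ((h : A) * k - k * h) ≤ 0 at h1
  change Complex.I • ((k : A) * h - h * k) ≤ 0 at h2
  rw [← neg_sub, smul_neg, neg_nonpos] at h2
  have h3 := le_antisymm h1 h2
  rwa [smul_eq_zero_iff_right Complex.I_ne_zero, sub_eq_zero] at h3

theorem all_comm {op : selfAdjoint A → selfAdjoint A → selfAdjoint A} {e : selfAdjoint A}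
    (G : Grp 1 op e) (x y : A) : x * y = y * x := by
  rw [← realPart_add_I_smul_imaginaryPart x, ← realPart_add_I_smul_imaginaryPart y]
  simp only [mul_add, add_mul, smul_mul_assoc, mul_smul_comm]
  rw [sa_comm G (realPart x) (realPart y), sa_comm G (realPart x) (imaginaryPart y),
    sa_comm G (imaginaryPart x) (realPart y), sa_comm G (imaginaryPart x) (imaginaryPart y)]
  module

end Pool.Agent.H.MP_b405c8_an
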